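import Mathlib
import Pool.Agent.H99.KG.Cls

/-!
# Proper solutions over Hilbertian fields containing an ample field: kernels with planar outer groups

Let `k` be an ample field of characteristic `0` (`ℝ`, `ℚ_p`, any real closed, henselian or pseudo
algebraically closed field of characteristic `0`, ...; NO roots of unity are required), and `K` ANY
Hilbertian field containing `k`, for example the function field of a variety over `k` (in general `K`
is not ample). Let `L/K` be a finite Galois extension and `α : X → Gal(L/K)` a surjective homomorphism,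
split or not, with kernel `N`.

A nonabelian finite simple group `T` is called allowed if `Inn(T)` has a complement `O` in `Aut(T)`
such that `O` is isomorphic to a subgroup of `S₃`, or `O` has a representation `O → GL₂(k)` such that
only the identity acts by a scalar. The first condition does not involve the field; it holds for
example for the alternating groups except `A_6`, the sporadic groups, `PSL_2(p)`, `PSL_2(8)`,
`E_6(p)`, `Sz(8)`, `O_8^+(2)`. (These examples are not formalised.) For `k = ℝ` the second condition
holds for cyclic and dihedral groups `O` of order `n`, `2n`, `n` odd.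

Let `N₁` be a normal subgroup of `X` contained in `N` such that the composition factors of `N₁` are
allowed, the Sylow subgroups of `N / N₁` are abelian, and the composition factors of `N / N₁` have
prime order or are allowed. If the embedding problem `X / [N, N]N₁ → Gal(L/K)`, whose kernel is
abelian, has a weak solution, then `α` has a proper solution. In particular `α` has a proper
solution if it splits, or if `N / N₁` is perfect (for example if `N = N₁`).

The corresponding theorem of the starting library (`CyclicOuterKernels`) needs that `k` contains all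
roots of unity. Here the new ingredient is the solution of all split embedding problems over `K` with
Galois action through a planar group over `k` (`Pool/Agent/H99/SM`), without roots of unity in `k`.
-/

set_option autoImplicit false

open Pool.Agent.Y60.DC (CompIn)

namespace Pool.Agent.Results.MP_e9d732_al.KernelsSmallOut

/-- `k` is ample, in the form: `k` is existentially closed in the field `k((t))` of Laurent series,
that is, every finite system of polynomial equations over `k` with a solution in `k((t))` has a
solution in `k`. -/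
def IsAmple (k : Type) [Field k] : Prop :=
  ∀ (n : ℕ) (s : Finset (MvPolynomial (Fin n) k)),
    (∃ x : Fin n → LaurentSeries k, ∀ p ∈ s, MvPolynomial.aeval x p = 0) →
    ∃ y : Fin n → k, ∀ p ∈ s, MvPolynomial.eval y p = 0

/-- `K` is Hilbertian (the hypothesis of the frozen statement `S03429`). -/
def IsHilbertian (K : Type) [Field K] : Prop :=
  ∀ (f : Polynomial (Polynomial K)), f.Monic → Irreducible f →
    (f.map (algebraMap (Polynomial K) (FractionRing (Polynomial K)))).Separable →
    ∀ g : Polynomial K, g ≠ 0 →
      ∃ a : K, g.eval a ≠ 0 ∧ Irreducible (f.map (Polynomial.evalRingHom a))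

/-- The embedding problem `α : X → Gal(L/K)` has a proper solution: there is a finite Galois
extension `F` of `K` which contains `L`, with an isomorphism `γ : Gal(F/K) ≅ X` such that `α ∘ γ` is
the restriction (as in the frozen statement `S03429`). -/
def ProperSolution (K L X : Type) [Field K] [Field L] [Algebra K L] [IsGalois K L] [Group X]
    (α : X →* (L ≃ₐ[K] L)) : Prop :=
  ∃ (F : Type) (_ : Field F) (_ : Algebra K F) (_ : Algebra L F) (_ : IsScalarTower K L F),
    FiniteDimensional K F ∧ IsGalois K F ∧
    ∃ γ : (F ≃ₐ[K] F) ≃* X, ∀ σ : F ≃ₐ[K] F, α (γ σ) = σ.restrictNormal L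

/-- `α` has a section which is a homomorphism. -/
def Splits {K L X : Type} [Field K] [Field L] [Algebra K L] [Group X] (α : X →* (L ≃ₐ[K] L)) :
    Prop :=
  ∃ s : (L ≃ₐ[K] L) →* X, ∀ ρ, α (s ρ) = ρ

/-- A weak solution of the embedding problem `X / M → Gal(L/K)` (`M` is contained in the kernel of
`α`): a homomorphism `s` of the group of a finite Galois extension `L'/K` which contains `L` to
`X / M`, not necessarily surjective, with `(α mod M) (s ρ) =` the restriction of `ρ` to `L`. -/
def WeakSolModulo (K L : Type) [Field K] [Field L] [Algebra K L] [Normal K L] {X : Type} [Group X]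
    (α : X →* (L ≃ₐ[K] L)) (M : Subgroup X) [M.Normal] : Prop :=
  ∃ (L' : Type) (_ : Field L') (_ : Algebra K L') (_ : Algebra L L') (_ : IsScalarTower K L L')
    (_ : FiniteDimensional K L') (_ : IsGalois K L') (s : (L' ≃ₐ[K] L') →* X ⧸ M),
    ∀ (ρ : L' ≃ₐ[K] L') (x : X), s ρ = QuotientGroup.mk x → α x = ρ.restrictNormal L

/-- `O` is a complement of the group of inner automorphisms of `T` in the automorphism group. -/
def IsComplementInn {T : Type} [Group T] (O : Subgroup (MulAut T)) : Prop :=
  (∀ σ : MulAut T, ∃ o ∈ O, ∃ t : T, σ = o * MulAut.conj t) ∧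
    ∀ t : T, MulAut.conj t ∈ O → MulAut.conj t = 1

/-- The inner automorphisms of `T` have a complement `O` which is isomorphic to a subgroup of
`S₃`. -/
def SmallOut (T : Type) [Group T] : Prop :=
  ∃ O : Subgroup (MulAut T), IsComplementInn O ∧ ∃ j : O →* Equiv.Perm (Fin 3), Function.Injective j

/-- The inner automorphisms of `T` have a complement `O` with a homomorphism `ρ : O → GL₂(k)` such
that only `o = 1` has a scalar matrix `ρ o`. -/
def PlanarOut (k : Type) [Field k] (T : Type) [Group T] : Prop :=
  ∃ O : Subgroup (MulAut T), IsComplementInn O ∧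
    ∃ ρ : O →* Matrix.GeneralLinearGroup (Fin 2) k,
      ∀ o : O, (∃ c : k, (ρ o : Matrix (Fin 2) (Fin 2) k) = c • (1 : Matrix (Fin 2) (Fin 2) k)) →
        o = 1

/-- Allowed simple groups: `T` is a nonabelian finite simple group with `SmallOut T` or
`PlanarOut k T`. -/
def Allowed (k : Type) [Field k] (T : Type) [Group T] : Prop :=
  Finite T ∧ IsSimpleGroup T ∧ (∃ a b : T, a * b ≠ b * a) ∧ (SmallOut T ∨ PlanarOut k T)

/-- All Sylow subgroups of `N` are commutative. -/
def AbelianSylows (N : Type) [Group N] : Prop :=
  ∀ (r : ℕ) [Fact r.Prime] (P : Sylow r N), ∀ x ∈ P, ∀ y ∈ P, x * y = y * x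

/-- The composition factors of `N₁ ≤ N` are allowed (over `k`); the Sylow subgroups of `N / N₁` are
commutative and its composition factors have prime order or are allowed. -/
def KernelCondition (k : Type) [Field k] {X : Type} [Group X] (N N₁ : Subgroup X) [N₁.Normal] :
    Prop :=
  N₁ ≤ N ∧ CompIn (fun (T : Type) [Group T] => Allowed k T) N₁ ∧
  AbelianSylows (N ⧸ N₁.subgroupOf N) ∧
  CompIn (fun (T : Type) [Group T] => Allowed k T ∨ (Nat.card T).Prime) (N ⧸ N₁.subgroupOf N)

theorem allowed_iff {k : Type} [Field k] [CharZero k] {T : Type} [Group T] (h : Allowed k T) :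
    H99.KG.SPO k T := by
  obtain ⟨h1, h2, h3, h4⟩ := h
  refine ⟨h1, h2, h3, ?_⟩
  rcases h4 with ⟨O, ⟨h5, h6⟩, j, hj⟩ | ⟨O, ⟨h5, h6⟩, ρ, hρ⟩
  · exact H99.KG.SmallOut.planar k ⟨O, h5, h6, j, hj⟩
  · exact ⟨O, h5, h6, ρ, hρ⟩

theorem result :
    ∀ (k K L X : Type) [Field k] [CharZero k] [Field K] [Algebra k K] [Field L] [Algebra K L]
      [FiniteDimensional K L] [IsGalois K L] [Group X] [Finite X] (α : X →* (L ≃ₐ[K] L))
      (N₁ : Subgroup X) [N₁.Normal],
      IsHilbertian K → IsAmple k → Function.Surjective α → KernelCondition k α.ker N₁ →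
      (WeakSolModulo K L α (⁅α.ker, α.ker⁆ ⊔ N₁) ∨ Splits α ∨ ⁅α.ker, α.ker⁆ ⊔ N₁ = α.ker) →
      ProperSolution K L X α := by
  intro k K L X _ _ _ _ _ _ _ _ _ _ α N₁ _ hK hk hα hN h
  obtain ⟨h1, h2, h3, h4⟩ := hN
  have key : WeakSolModulo K L α (⁅α.ker, α.ker⁆ ⊔ N₁) → ProperSolution K L X α := fun hw => by
    obtain ⟨F, i1, i2, i3, i4, i5, i6, i7, i8, γ, i9, -⟩ := H99.KG.reg_weak_gen hk α N₁ h1
      (Pool.Agent.Q17.OC.compIn_mono' (fun T _ h => allowed_iff h) h2) h3
      (Pool.Agent.Q17.OC.compIn_mono' (fun T _ h => h.imp allowed_iff id) h4) hw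
    exact H33.hilbert_spec K hK L X α ⟨F, i1, i2, i3, i4, i5, i6, i7, i8, γ, i9⟩
  rcases h with h | ⟨s, hs⟩ | h
  · exact key h
  · exact key (Pool.Agent.Q17.NRP.weakSol_of_section α _
      (sup_le (Subgroup.commutator_le_self _) h1) s hs)
  · exact key (Pool.Agent.Q17.OC.weak_perfect α hα N₁ h)

end Pool.Agent.Results.MP_e9d732_al.KernelsSmallOut
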