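import Mathlib
import Pool.Agent.H99.SM.S3

/-!
# Planar Galois actions over fields which contain an ample field: no roots of unity are needed

Let `k` be an ample field of characteristic `0` (for example `ℝ`, `ℚ_p`, any real closed or
henselian or pseudo algebraically closed field; NO roots of unity are required), `K` any field
containing `k` (for example the function field of a variety over `k`; in general `K` is not ample),
`L/K` a finite Galois extension, `α : G → Gal(L/K)` a homomorphism of finite groups, `L' ⊇ L` finite
Galois over `K` and `s : Gal(L'/K) → G` a weak solution (for a split embedding problem take `L' = L`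
and `s` a section). Suppose that one of the following holds.

* (symmetric) There is a homomorphism `j : Gal(L'/K) → S₃` whose kernel acts trivially on the kernel
  of `α` (through `s`). This holds for every split embedding problem if `Gal(L/K)` has order at most
  `3` or is isomorphic to `S₃`.
* (planar) There is a two-dimensional projective representation `ρ` of `Gal(L'/K)` over `k` such that
  the elements `τ` with scalar `ρ τ` act trivially on the kernel of `α`, and `ρ` is a homomorphism,
  or every ternary quadratic form over `K` is isotropic, or the projective line over `L'` twisted by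
  `ρ` has a point.

Then, if `K` is Hilbertian, `α` has a proper solution over `K`. There is no condition on the kernel of
`α`.

For `k` containing a primitive root of unity of order `exp(ker α)` the second part is the theorem
`TwoDimensional` of the starting library. The first part is new even for `K = ℝ(x, y)` or
`K = ℚ_p(x)` and quadratic extensions `L/K`.

Proof. Let `κ = k(ζ)`, `ζ` a root of unity of order `exp(ker α)`, and `Δ = Gal(κ/k)`. The group
`Γ × Δ` (`Γ` the image of `ρ` in `PGL₂(k)`) acts semilinearly on `κ(v)`. Patching over `κ((X))(v)` at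
the points of free orbits of `Γ × Δ`, with the local root of unity `δ ζ` at the points
`(γ, δ) x`, gives a vector of power series which is unique up to `κ[[X]]`; its average over `Δ`
generates an extension of `k((X))(v)` with an action of `H ⋊ Γ`, `H = ker α`. It descends to
`k(v)` because `k` is ample, and is twisted by `ρ`; this gives a regular solution over `K(t)`, which
is specialised to a proper solution over the Hilbertian field `K`.
-/

set_option autoImplicit false

namespace Pool.Agent.Results.MP_e9d732_al.PlanarAnyRoots

/-- `k` is ample, in the form: `k` is existentially closed in the field `k((t))` of Laurent series,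
that is, every finite system of polynomial equations over `k` with a solution in `k((t))` has a
solution in `k`. -/
def IsAmple (k : Type) [Field k] : Prop :=
  ∀ (n : ℕ) (s : Finset (MvPolynomial (Fin n) k)),
    (∃ x : Fin n → LaurentSeries k, ∀ p ∈ s, MvPolynomial.aeval x p = 0) →
    ∃ y : Fin n → k, ∀ p ∈ s, MvPolynomial.eval y p = 0

/-- `K` is Hilbertian (the hypothesis of the frozen statement `S03429`). -/
def IsHilbertian (K : Type) [Field K] : Prop :=
  ∀ (f : Polynomial (Polynomial K)), f.Monic → Irreducible f →
    (f.map (algebraMap (Polynomial K) (FractionRing (Polynomial K)))).Separable →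
    ∀ g : Polynomial K, g ≠ 0 →
      ∃ a : K, g.eval a ≠ 0 ∧ Irreducible (f.map (Polynomial.evalRingHom a))

/-- `α : G → Gal(L/K)` has a proper solution: there is a finite Galois extension `F` of `K` which
contains `L`, with an isomorphism `γ : Gal(F/K) ≅ G` such that `α ∘ γ` is the restriction
(as in the frozen statement `S03429`). -/
def HasProperSolution {K L G : Type} [Field K] [Field L] [Algebra K L] [IsGalois K L] [Group G]
    (α : G →* (L ≃ₐ[K] L)) : Prop :=
  ∃ (F : Type) (_ : Field F) (_ : Algebra K F) (_ : Algebra L F) (_ : IsScalarTower K L F),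
    FiniteDimensional K F ∧ IsGalois K F ∧
    ∃ γ : (F ≃ₐ[K] F) ≃* G, ∀ σ : F ≃ₐ[K] F, α (γ σ) = σ.restrictNormal L

/-- `s : Gal(L'/K) → G` is a weak solution of `α : G → Gal(L/K)`: `α (s τ)` is the restriction of
`τ` to `L`. -/
def IsWeakSolution {K L L' G : Type} [Field K] [Field L] [Algebra K L] [IsGalois K L] [Field L']
    [Algebra K L'] [Algebra L L'] [IsScalarTower K L L'] [Group G] (α : G →* (L ≃ₐ[K] L))
    (s : (L' ≃ₐ[K] L') →* G) : Prop :=
  ∀ τ : L' ≃ₐ[K] L', α (s τ) = τ.restrictNormal L

/-- `τ` acts trivially on the kernel of `α`: the element `s τ` commutes with all elements of the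
kernel. -/
def ActsTrivially {K L L' G : Type} [Field K] [Field L] [Algebra K L] [Field L'] [Algebra K L']
    [Group G] (α : G →* (L ≃ₐ[K] L)) (s : (L' ≃ₐ[K] L') →* G) (τ : L' ≃ₐ[K] L') : Prop :=
  ∀ g : G, α g = 1 → s τ * g = g * s τ

/-- The invertible matrix `A` is scalar. -/
def IsScalar {k : Type} [Field k] (A : Matrix.GeneralLinearGroup (Fin 2) k) : Prop :=
  ∃ c : k, (A : Matrix (Fin 2) (Fin 2) k) = c • (1 : Matrix (Fin 2) (Fin 2) k)

/-- `ρ : G → GL₂(k)` is a projective representation: `ρ (g h)` is a multiple of `ρ g ρ h`. -/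
def IsProjRep {k G : Type} [Field k] [Group G]
    (ρ : G → Matrix.GeneralLinearGroup (Fin 2) k) : Prop :=
  ∀ g h, ∃ c : k, (ρ (g * h) : Matrix (Fin 2) (Fin 2) k) =
    c • ((ρ g : Matrix (Fin 2) (Fin 2) k) * (ρ h : Matrix (Fin 2) (Fin 2) k))

/-- `w` is a point of the line over `L` twisted by the projective representation `ρ` of `Gal(L/K)`:
for all `τ` in `Gal(L/K)` with matrix `ρ τ = (a b; c d)` one has `τ w = (a w + c) / (b w + d)`. -/
def IsPoint {k K L : Type} [Field k] [Field K] [Algebra k K] [Field L] [Algebra K L]
    (ρ : (L ≃ₐ[K] L) → Matrix.GeneralLinearGroup (Fin 2) k) (w : L) : Prop :=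
  ∀ (τ : L ≃ₐ[K] L) (a b c d : k), (ρ τ : Matrix (Fin 2) (Fin 2) k) = !![a, b; c, d] →
    τ w * (algebraMap K L (algebraMap k K b) * w + algebraMap K L (algebraMap k K d)) =
      algebraMap K L (algebraMap k K a) * w + algebraMap K L (algebraMap k K c)

/-- Every ternary quadratic form over `K` has a nontrivial zero. -/
def TernaryIsotropic (K : Type) [Field K] : Prop :=
  ∀ a : Fin 3 → Fin 3 → K, ∃ y : Fin 3 → K, y ≠ 0 ∧ ∑ i, ∑ j, a i j * y i * y j = 0

/-- First case: the action of `Gal(L'/K)` on the kernel of `α` factors through a subgroup of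
`S₃`. -/
def SymmetricAction {K L L' G : Type} [Field K] [Field L] [Algebra K L] [Field L']
    [Algebra K L'] [Group G] (α : G →* (L ≃ₐ[K] L)) (s : (L' ≃ₐ[K] L') →* G) : Prop :=
  ∃ j : (L' ≃ₐ[K] L') →* Equiv.Perm (Fin 3), ∀ τ, j τ = 1 → ActsTrivially α s τ

/-- Second case: the action of `Gal(L'/K)` on the kernel of `α` factors through a finite subgroup of
`PGL₂(k)`, and there is a point. -/
def PlanarAction (k : Type) {K L L' G : Type} [Field k] [Field K] [Algebra k K] [Field L]
    [Algebra K L] [Field L'] [Algebra K L'] [Group G] (α : G →* (L ≃ₐ[K] L))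
    (s : (L' ≃ₐ[K] L') →* G) : Prop :=
  ∃ ρ : (L' ≃ₐ[K] L') → Matrix.GeneralLinearGroup (Fin 2) k, IsProjRep ρ ∧
    (∀ τ, IsScalar (ρ τ) → ActsTrivially α s τ) ∧
    ((∀ σ τ, ρ (σ * τ) = ρ σ * ρ τ) ∨ TernaryIsotropic K ∨ ∃ w : L', IsPoint ρ w)

theorem result :
    ∀ (k K L L' G : Type) [Field k] [CharZero k] [Field K] [Algebra k K] [Field L] [Algebra K L]
      [FiniteDimensional K L] [IsGalois K L] [Field L'] [Algebra K L'] [FiniteDimensional K L']
      [IsGalois K L'] [Algebra L L'] [IsScalarTower K L L'] [Group G] [Finite G]
      (α : G →* (L ≃ₐ[K] L)) (s : (L' ≃ₐ[K] L') →* G),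
      IsHilbertian K → IsAmple k → IsWeakSolution α s →
      (SymmetricAction α s ∨ PlanarAction k α s) →
      HasProperSolution α := by
  intro k K L L' G _ _ _ _ _ _ _ _ _ _ _ _ _ _ _ _ α s hK hk hs h
  rcases h with ⟨j, hj⟩ | ⟨ρ, hproj, hρ, h⟩
  · refine H99.single_hilb k K L L' G hK hk α s hs (fun τ => H99.s3rep k (j τ))
      (H69MB.isProjRep_hom _ fun σ τ => by rw [map_mul, map_mul])
      (fun τ hτ => hj τ (H99.s3rep_scalar k (j τ) hτ))
      (H69MB.exists_point_hom _ fun σ τ => by rw [map_mul, map_mul])
  · refine H99.single_hilb k K L L' G hK hk α s hs ρ hproj hρ ?_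
    rcases h with h | h | h
    · exact H69MB.exists_point_hom ρ h
    · exact H69MB.exists_point_iso ρ hproj h
    · exact h

end Pool.Agent.Results.MP_e9d732_al.PlanarAnyRoots
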